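import Pool.Agent.Helper36.Alg.Graph
import Pool.Agent.Helper22.Pin.QB
import Pool.Agent.Helper79.GA.Blocks

/-!
# Codes of blocks (GA-7)
-/

set_option autoImplicit false

namespace Pool.Agent.Helper36.Alg

open Finset Pool.Agent.Helper36.PT
open Pool.Agent.Helper36.Pin (Sparse rk edges nbr ThreeConn RedRigid GR completeOn Pins pin IsEnd
  Forced Complete coloops core blocks fill Gen0 Gen Coord Line Blk At0 At lines)

/-- The block with the code `k`. -/
noncomputable def blkSet (n : ℕ) (R : ℕ → ℕ → Prop) (k : ℕ) : Finset (Fin n) :=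
  vset n (blkN n R (k / n) (k % n))

/-- The data of the code of a block. -/
private theorem isBlk_data {n : ℕ} {R : ℕ → ℕ → Prop} {k : ℕ} (hk : k < n * n)
    (h : isBlk n R k) : ∃ u v : Fin n, (u : ℕ) = k / n ∧ (v : ℕ) = k % n ∧ u < v ∧
      u ∈ blkSet n R k ∧ v ∈ blkSet n R k ∧ blkSet n R k ∈ blocks (gr n R) ∧
      ∀ w ∈ blkSet n R k, w < v → w = u := by
  have hn : 0 < n := by
    rcases Nat.eq_zero_or_pos n with h0 | h0
    · subst h0; simp at hk
    · exact h0
  have h1 : k / n < n := Nat.div_lt_of_lt_mul hk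
  have h2 : k % n < n := Nat.mod_lt _ hn
  obtain ⟨hlt, hs, hmin⟩ := h
  have hs' : sameN n R ((⟨k / n, h1⟩ : Fin n) : ℕ) ((⟨k % n, h2⟩ : Fin n) : ℕ) := hs
  obtain ⟨hne, X, hX, hu, hv⟩ := sameN_iff.1 hs'
  have hXe : blkSet n R k = X := by
    ext w
    have hw := blkN_iff (w := w) hX hu hv hne
    rw [← hw]
    simp only [blkSet, vset, Finset.mem_filter, Finset.mem_univ, true_and]
  refine ⟨⟨k / n, h1⟩, ⟨k % n, h2⟩, rfl, rfl, hlt, ?_, ?_, ?_, ?_⟩
  · rw [hXe]; exact hu
  · rw [hXe]; exact hv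
  · rw [hXe]; exact hX
  · intro w hw hwv
    by_contra hwu
    have hw' : blkN n R (k / n) (k % n) w := by
      simpa only [blkSet, vset, Finset.mem_filter, Finset.mem_univ, true_and] using hw
    refine hmin w hwv ?_ hw'
    intro he
    exact hwu (Fin.ext he)

theorem blkSet_mem {n : ℕ} {R : ℕ → ℕ → Prop} {k : ℕ} (hk : k < n * n) (h : isBlk n R k) :
    blkSet n R k ∈ blocks (gr n R) := by
  obtain ⟨u, v, -, -, -, -, -, hb, -⟩ := isBlk_data hk h
  exact hb

theorem blkSet_inj {n : ℕ} {R : ℕ → ℕ → Prop} {k k' : ℕ} (hk : k < n * n) (hk' : k' < n * n)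
    (h : isBlk n R k) (h' : isBlk n R k') (he : blkSet n R k = blkSet n R k') : k = k' := by
  obtain ⟨u, v, hu, hv, huv, huX, hvX, -, hmin⟩ := isBlk_data hk h
  obtain ⟨u', v', hu', hv', huv', huX', hvX', -, hmin'⟩ := isBlk_data hk' h'
  rw [← he] at huX' hvX' hmin'
  have hvv : v = v' := by
    rcases lt_trichotomy v v' with hlt | heq | hlt
    · have e1 := hmin' v hvX hlt
      have e2 := hmin' u huX (huv.trans hlt)
      exact absurd (e2.trans e1.symm) huv.ne
    · exact heq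
    · have e1 := hmin v' hvX' hlt
      have e2 := hmin u' huX' (huv'.trans hlt)
      exact absurd (e2.trans e1.symm) huv'.ne
  have huu : u' = u := hmin u' huX' (by rw [hvv]; exact huv')
  rw [← Nat.div_add_mod k n, ← Nat.div_add_mod k' n, ← hu, ← hv, ← hu', ← hv', hvv, huu]

theorem exists_code {n : ℕ} {R : ℕ → ℕ → Prop} {X : Finset (Fin n)}
    (hX : X ∈ blocks (gr n R)) : ∃ k < n * n, isBlk n R k ∧ blkSet n R k = X := by
  have hcard : 2 ≤ X.card := (Pin.comps_blocks (gr n R)).two_le X hX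
  have hne : X.Nonempty := by
    rw [← Finset.card_pos]; omega
  have huX := X.min'_mem hne
  set u := X.min' hne with hudef
  have hne' : (X.erase u).Nonempty := by
    rw [← Finset.card_pos, Finset.card_erase_of_mem huX]; omega
  have hvX' := (X.erase u).min'_mem hne'
  set v := (X.erase u).min' hne' with hvdef
  have hvX : v ∈ X := Finset.mem_of_mem_erase hvX'
  have hvu : v ≠ u := Finset.ne_of_mem_erase hvX'
  have huv : u < v := lt_of_le_of_ne (Finset.min'_le X v hvX) hvu.symm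
  have hn : 0 < n := lt_of_le_of_lt (Nat.zero_le _) u.isLt
  have hdiv : ((u : ℕ) * n + v) / n = u := by
    rw [mul_comm, Nat.mul_add_div hn, Nat.div_eq_of_lt v.isLt, add_zero]
  have hmod : ((u : ℕ) * n + v) % n = v := by
    rw [mul_comm, Nat.mul_add_mod, Nat.mod_eq_of_lt v.isLt]
  have hlt : (u : ℕ) * n + v < n * n := by
    calc (u : ℕ) * n + v < (u : ℕ) * n + n := Nat.add_lt_add_left v.isLt _
      _ = ((u : ℕ) + 1) * n := by ring
      _ ≤ n * n := Nat.mul_le_mul_right n u.isLt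
  refine ⟨(u : ℕ) * n + v, hlt, ⟨?_, ?_, ?_⟩, ?_⟩
  · rw [hdiv, hmod]; exact huv
  · rw [hdiv, hmod]; exact sameN_iff.2 ⟨huv.ne, X, hX, huX, hvX⟩
  · rw [hdiv, hmod]
    intro w hw hwu hblk
    have hwn : w < n := hw.trans v.isLt
    have hwX : (⟨w, hwn⟩ : Fin n) ∈ X := (blkN_iff (w := ⟨w, hwn⟩) hX huX hvX huv.ne).1 hblk
    have hwe : (⟨w, hwn⟩ : Fin n) ∈ X.erase u :=
      Finset.mem_erase.2 ⟨fun he => hwu (congrArg Fin.val he), hwX⟩
    have hle : v ≤ ⟨w, hwn⟩ := Finset.min'_le _ _ hwe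
    have hle' : (v : ℕ) ≤ w := hle
    omega
  · ext w
    rw [← blkN_iff (w := w) hX huX hvX huv.ne]
    simp only [blkSet, vset, Finset.mem_filter, Finset.mem_univ, true_and, hdiv, hmod]

theorem bcard_eq {n : ℕ} {R : ℕ → ℕ → Prop} {k : ℕ} : bcard n R k = (blkSet n R k).card := by
  classical
  unfold bcard blkSet cardN vset
  rw [Finset.card_filter, ← Fin.sum_univ_eq_sum_range
    (fun v => ind (blkN n R (k / n) (k % n) v)) n]
  refine Finset.sum_congr rfl (fun v _ => ?_)
  unfold ind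
  split_ifs <;> rfl

end Pool.Agent.Helper36.Alg
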